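import Pool.Agent.H85.PS.Targets

/-! MJM: majorants multiply. -/

set_option autoImplicit false

open Polynomial Finset Pool.Agent.H85.PS

namespace Pool.Agent.H19.PSV

theorem pf_MJM : T_MJM := by
  intro K L ρ g h hρ hK hg hh i
  have hL : 0 ≤ L := by
    have := hh 0
    rw [pow_zero, mul_one] at this
    exact (abs_nonneg _).trans this
  rw [PowerSeries.coeff_mul]
  push_cast
  calc |∑ p ∈ antidiagonal i, ((PowerSeries.coeff p.1 g : ℚ) : ℝ) *
          ((PowerSeries.coeff p.2 h : ℚ) : ℝ)|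
      ≤ ∑ p ∈ antidiagonal i, |((PowerSeries.coeff p.1 g : ℚ) : ℝ) *
          ((PowerSeries.coeff p.2 h : ℚ) : ℝ)| := Finset.abs_sum_le_sum_abs _ _
    _ ≤ ∑ _p ∈ antidiagonal i, K * L * ρ ^ i := by
        refine Finset.sum_le_sum fun p hp => ?_
        rw [abs_mul]
        have e := Finset.HasAntidiagonal.mem_antidiagonal.1 hp
        calc |((PowerSeries.coeff p.1 g : ℚ) : ℝ)| * |((PowerSeries.coeff p.2 h : ℚ) : ℝ)|
            ≤ (K * ρ ^ p.1) * (L * ρ ^ p.2) :=
              mul_le_mul (hg p.1) (hh p.2) (abs_nonneg _) (by positivity)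
          _ = K * L * ρ ^ i := by rw [← e, pow_add]; ring
    _ = (i + 1) * (K * L * ρ ^ i) := by
        rw [Finset.sum_const, Finset.Nat.card_antidiagonal, nsmul_eq_mul]
        push_cast
        ring
    _ ≤ 2 ^ i * (K * L * ρ ^ i) := by
        refine mul_le_mul_of_nonneg_right ?_ (by positivity)
        exact_mod_cast (Nat.lt_two_pow_self (n := i))
    _ = K * L * (2 * ρ) ^ i := by rw [mul_pow]; ring

end Pool.Agent.H19.PSV
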