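import Pool.Agent.H85.PS.Targets

/-! TAP: Taylor series of polynomials. -/

set_option autoImplicit false

open Polynomial Finset Pool.Agent.H85.PS

namespace Pool.Agent.H19.PSV

theorem iter_aeval (p : ℚ[X]) (j : ℕ) : iteratedDeriv j (fun z : ℂ => aeval z p) =
    fun z => aeval z (derivative^[j] p) := by
  induction j with
  | zero => simp
  | succ j ih =>
    rw [iteratedDeriv_succ, ih]
    funext z
    rw [Function.iterate_succ_apply']
    exact Polynomial.deriv_aeval _

theorem pf_TAP : T_TAP := by
  intro z0 p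
  ext j
  rw [PowerSeries.coeff_map, Polynomial.coeff_coe, taylor_coeff]
  unfold Tay
  rw [PowerSeries.coeff_mk, iter_aeval, ← Polynomial.factorial_smul_hasseDeriv]
  have hj : (j.factorial : ℂ) ≠ 0 := by exact_mod_cast (Nat.factorial_pos j).ne'
  simp only [LinearMap.smul_apply]
  have h1 : (z0 : ℂ) = algebraMap ℚ ℂ z0 := rfl
  rw [h1, map_nsmul, Polynomial.aeval_algebraMap_apply, nsmul_eq_mul, mul_div_cancel_left₀ _ hj]
  rfl

end Pool.Agent.H19.PSV
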